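import Pool.Agent.W751.CV.Stm

/-!
# CV-GRAM: upper bound of the Vandermonde integral with trial polynomials
-/

set_option autoImplicit false

open Polynomial Filter Topology MeasureTheory
open scoped ComplexOrder

namespace Pool.Agent.W366.CV

open Pool.Agent.W751.CV

section

variable {ν : Measure ℂ} [IsFiniteMeasure ν] {B : ℝ}

lemma int_cont (hB : ν (Metric.closedBall (0 : ℂ) B)ᶜ = 0) {E : Type} [NormedAddCommGroup E]
    [SecondCountableTopology E] {f : ℂ → E} (hf : Continuous f) : Integrable f ν := by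
  obtain ⟨C, hC⟩ := (isCompact_closedBall (0 : ℂ) B).exists_bound_of_continuousOn hf.continuousOn
  refine (integrable_const C).mono' hf.aestronglyMeasurable ?_
  have h1 : ∀ᵐ x ∂ν, x ∈ Metric.closedBall (0 : ℂ) B := by
    rw [ae_iff]
    exact hB
  filter_upwards [h1] with x hx
  exact hC x hx

/-- the Gram matrix -/
noncomputable def gm (ν : Measure ℂ) {N : ℕ} (φ : Fin N → ℂ[X]) : Matrix (Fin N) (Fin N) ℂ :=
  Matrix.of fun j k : Fin N => ∫ x, (starRingEnd ℂ) ((φ j).eval x) * (φ k).eval x ∂ν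

lemma gm_apply (ν : Measure ℂ) {N : ℕ} (φ : Fin N → ℂ[X]) (j k : Fin N) :
    gm ν φ j k = ∫ x, (starRingEnd ℂ) ((φ j).eval x) * (φ k).eval x ∂ν := rfl

lemma cont_pair {N : ℕ} (φ : Fin N → ℂ[X]) (j k : Fin N) :
    Continuous fun x : ℂ => (starRingEnd ℂ) ((φ j).eval x) * (φ k).eval x :=
  (Complex.continuous_conj.comp (φ j).continuous).mul (φ k).continuous

lemma gm_psd (hB : ν (Metric.closedBall (0 : ℂ) B)ᶜ = 0) {N : ℕ} (φ : Fin N → ℂ[X]) :
    (gm ν φ).PosSemidef := by
  refine Matrix.PosSemidef.of_dotProduct_mulVec_nonneg ?_ fun x => ?_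
  · ext j k
    rw [Matrix.conjTranspose_apply, gm_apply, gm_apply]
    show (starRingEnd ℂ) _ = _
    rw [← integral_conj]
    refine integral_congr_ae (ae_of_all _ fun w => ?_)
    simp only [map_mul, Complex.conj_conj]
    ring
  · have hint : ∀ j k : Fin N, Integrable (fun w : ℂ =>
        (starRingEnd ℂ) (x j) * ((starRingEnd ℂ) ((φ j).eval w) * (φ k).eval w) * x k) ν :=
      fun j k => ((int_cont hB (cont_pair φ j k)).const_mul _).mul_const _
    have key : star x ⬝ᵥ (gm ν φ).mulVec x =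
        ((∫ w, ‖∑ k, x k * (φ k).eval w‖ ^ 2 ∂ν : ℝ) : ℂ) := by
      calc star x ⬝ᵥ (gm ν φ).mulVec x
          = ∑ j, ∑ k, (starRingEnd ℂ) (x j) * gm ν φ j k * x k := by
            unfold dotProduct Matrix.mulVec dotProduct
            refine Finset.sum_congr rfl fun j _ => ?_
            rw [Finset.mul_sum]
            refine Finset.sum_congr rfl fun k _ => ?_
            rw [Pi.star_apply, mul_assoc]
            rfl
        _ = ∑ j, ∑ k, ∫ w, (starRingEnd ℂ) (x j) *
              ((starRingEnd ℂ) ((φ j).eval w) * (φ k).eval w) * x k ∂ν := by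
            refine Finset.sum_congr rfl fun j _ => Finset.sum_congr rfl fun k _ => ?_
            rw [integral_mul_const, integral_const_mul, gm_apply]
        _ = ∫ w, ∑ j, ∑ k, (starRingEnd ℂ) (x j) *
              ((starRingEnd ℂ) ((φ j).eval w) * (φ k).eval w) * x k ∂ν := by
            rw [integral_finsetSum _ fun j _ => integrable_finsetSum _ fun k _ => hint j k]
            refine Finset.sum_congr rfl fun j _ => ?_
            rw [integral_finsetSum _ fun k _ => hint j k]
        _ = ∫ w, ((‖∑ k, x k * (φ k).eval w‖ ^ 2 : ℝ) : ℂ) ∂ν := by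
            refine integral_congr_ae (ae_of_all _ fun w => ?_)
            simp only
            rw [Complex.ofReal_pow, ← Complex.conj_mul', map_sum, Finset.sum_mul_sum]
            refine Finset.sum_congr rfl fun j _ => Finset.sum_congr rfl fun k _ => ?_
            rw [map_mul]
            ring
        _ = _ := integral_complex_ofReal
    rw [key, Complex.zero_le_real]
    exact integral_nonneg fun w => by positivity

omit [IsFiniteMeasure ν] in
lemma gm_diag {N : ℕ} (φ : Fin N → ℂ[X]) (i : Fin N) :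
    (gm ν φ i i).re = ∫ x, ‖(φ i).eval x‖ ^ 2 ∂ν := by
  have h : gm ν φ i i = ((∫ x, ‖(φ i).eval x‖ ^ 2 ∂ν : ℝ) : ℂ) := by
    rw [gm_apply, ← integral_complex_ofReal]
    refine integral_congr_ae (ae_of_all _ fun w => ?_)
    simp only
    rw [Complex.ofReal_pow, ← Complex.conj_mul']
  rw [h, Complex.ofReal_re]

end

theorem gram : S_GRAM := by
  intro hAND hHAD N ν _ B hB φ hφ
  obtain ⟨hint, hval⟩ := hAND N ν B hB (fun j => φ j)
  have hvd : ∀ z : Fin N → ℂ, vd z = ‖(Matrix.of fun i j : Fin N => (φ j).eval (z i)).det‖ ^ 2 := by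
    intro z
    unfold vd
    rw [Matrix.det_eval_matrixOfPolynomials_eq_det_vandermonde z (fun j : Fin N => φ j)
      (fun j => (hφ j).2) (fun j => (hφ j).1)]
  have e1 : ∫⁻ z, ENNReal.ofReal (vd z) ∂(Measure.pi fun _ : Fin N => ν) =
      ENNReal.ofReal (∫ z, ‖(Matrix.of fun i j : Fin N => (φ j).eval (z i)).det‖ ^ 2
        ∂(Measure.pi fun _ : Fin N => ν)) := by
    rw [ofReal_integral_eq_lintegral_ofReal hint (ae_of_all _ fun z => by
      show (0 : ℝ) ≤ ‖(Matrix.of fun i j : Fin N => (φ j).eval (z i)).det‖ ^ 2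
      positivity)]
    refine lintegral_congr fun z => ?_
    rw [hvd]
  have e2 : ∫ z, ‖(Matrix.of fun i j : Fin N => (φ j).eval (z i)).det‖ ^ 2
      ∂(Measure.pi fun _ : Fin N => ν) = (N.factorial : ℝ) * (gm ν fun j : Fin N => φ j).det.re := by
    have h := congrArg Complex.re hval
    rw [Complex.ofReal_re] at h
    rw [h]
    have h3 : ((N.factorial : ℂ)) = ((N.factorial : ℝ) : ℂ) := by push_cast; rfl
    rw [h3, Complex.re_ofReal_mul]
    rfl
  have e3 := hHAD N (gm ν fun j : Fin N => φ j) (gm_psd hB _)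
  have hn : ∀ k : ℕ, 0 ≤ ∫ x, ‖(φ k).eval x‖ ^ 2 ∂ν := fun k => integral_nonneg fun w => by positivity
  have e4 : ∏ i : Fin N, (gm ν (fun j : Fin N => φ j) i i).re =
      ∏ k ∈ Finset.range N, ∫ x, ‖(φ k).eval x‖ ^ 2 ∂ν := by
    rw [Finset.prod_range]
    exact Finset.prod_congr rfl fun i _ => gm_diag _ i
  have e5 : ∀ k : ℕ, ENNReal.ofReal (∫ x, ‖(φ k).eval x‖ ^ 2 ∂ν) =
      ∫⁻ x, ENNReal.ofReal (‖(φ k).eval x‖ ^ 2) ∂ν := by
    intro k
    have hc : Continuous fun x : ℂ => ‖(φ k).eval x‖ ^ 2 := ((φ k).continuous.norm).pow 2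
    exact ofReal_integral_eq_lintegral_ofReal (int_cont hB hc) (ae_of_all _ fun z => by
      show (0 : ℝ) ≤ ‖(φ k).eval z‖ ^ 2
      positivity)
  rw [e1, e2]
  refine (ENNReal.ofReal_le_ofReal (mul_le_mul_of_nonneg_left (e3.trans (le_of_eq e4))
    (Nat.cast_nonneg _))).trans (le_of_eq ?_)
  rw [ENNReal.ofReal_mul (Nat.cast_nonneg _), ENNReal.ofReal_natCast,
    ENNReal.ofReal_prod_of_nonneg fun k _ => hn k]
  congr 1
  exact Finset.prod_congr rfl fun k _ => e5 k

end Pool.Agent.W366.CV
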